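import Pool.Agent.Helper97_WHC.Stmt

/-!
# Squad WHC, row NRM: the horocycle of a dominant `m` with the norm of `l` meets `K t^l o` in one
point only
-/

set_option autoImplicit false

open scoped BigOperators

namespace Pool.Agent.WHC.H63

open Pool.Agent.DEN Pool.Agent.TMP Pool.Agent.WHT
open Pool.Agent.TMP.H43.Cat (IsCo Mx exists_co bound_co xg_UH)

section
variable {r : ℕ} {C : Matrix (Fin r) (Fin r) ℤ} {K : Type} [Field K]
variable {hC : SimplyLaced C} {co : grp C K → Rt C → FF K}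

theorem ip_nonneg {m : Fin r → ℤ} (hm : IsDom C m) {β : Rt C} (hβ : β.Pos) :
    0 ≤ ip C β.1 m := by
  rw [Pool.Agent.TMP.H63.ip_exp]
  exact Finset.sum_nonneg fun i _ => mul_nonneg (hβ i) (hm i)

/-- Removing some coordinates of height `n + 1`, on the right. -/
theorem kill_some (hco : IsCo hC K co) {z : XX C K} {M : ℤ} (hM : Mx hC K z M) {n : ℕ}
    {m : Fin r → ℤ} (hm : ip C m m = M) (hd : IsDom C m) {k : grp C K} (hk : k ∈ maxK C K)
    {u : grp C K} (hu : u ∈ UH hC K (n + 1)) (e : k • z = u • tp hC K m) (S : Finset (Rt C)) :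
    (∀ β ∈ S, ht β = (n + 1 : ℕ)) → ∃ v ∈ UH hC K (n + 1),
      v • tp hC K m = u • tp hC K m ∧ ∀ β ∈ S, co v β = 0 := by
  classical
  induction S using Finset.induction_on with
  | empty =>
    intro _
    exact ⟨u, hu, rfl, fun β hβ => absurd hβ (Finset.notMem_empty β)⟩
  | insert β S hβS ih =>
    intro hS
    obtain ⟨v, hv, e', hz⟩ := ih fun γ hγ => hS γ (Finset.mem_insert_of_mem hγ)
    have hβ := hS β (Finset.mem_insert_self β S)
    have hpos : β.Pos := by
      rw [pos_iff hC, hβ]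
      push_cast
      omega
    have h1 := bound_co hco hM n k hk v hv m (e.trans e'.symm) hm β hβ
    rw [max_eq_right (ip_nonneg hd hpos)] at h1
    have h2 : -co v β ∈ Bd K (ip C β.1 m) := (H22.hF1 K).2.2.1 _ _ h1
    have hx : xg hC β (-co v β) ∈ UH hC K (n + 1) := xg_UH hC (by rw [hβ]) _
    refine ⟨v * xg hC β (-co v β), mul_mem hv hx, ?_, fun γ hγ => ?_⟩
    · rw [mul_smul, xg_tp hC m β h2, e']
    · have hγh := hS γ hγ
      rw [hco.add (n + 1) _ _ _ (by omega) hv hx hγh]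
      rcases Finset.mem_insert.mp hγ with rfl | hγS
      · rw [hco.self _ _ hpos]
        ring
      · rw [hz γ hγS, hco.ne (h := n + 1) (by omega) hγh (by rw [hβ]) (by
          rintro rfl
          exact hβS hγS), add_zero]

theorem kill_h (hco : IsCo hC K co) {z : XX C K} {M : ℤ} (hM : Mx hC K z M) {n : ℕ}
    {m : Fin r → ℤ} (hm : ip C m m = M) (hd : IsDom C m) {k : grp C K} (hk : k ∈ maxK C K)
    {u : grp C K} (hu : u ∈ UH hC K (n + 1)) (e : k • z = u • tp hC K m) :
    ∃ v ∈ UH hC K (n + 1 + 1), v • tp hC K m = u • tp hC K m := by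
  classical
  have hfin : Finite (Rt C) := H22.hRF r C hC
  let _ : Fintype (Rt C) := Fintype.ofFinite _
  obtain ⟨v, hv, e', hz⟩ := kill_some hco hM hm hd hk hu e
    (Finset.univ.filter fun β : Rt C => ht β = (n + 1 : ℕ)) (by simp)
  refine ⟨v, hco.ker (n + 1) v (by omega) hv fun β hβ => hz β ?_, e'⟩
  simp [hβ]

theorem kill_all (hco : IsCo hC K co) {z : XX C K} {M : ℤ} (hM : Mx hC K z M)
    {m : Fin r → ℤ} (hm : ip C m m = M) (hd : IsDom C m) {k : grp C K} (hk : k ∈ maxK C K)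
    {u : grp C K} (hu : u ∈ Ug C K) (e : k • z = u • tp hC K m) :
    u • tp hC K m = tp hC K m := by
  have h1 : ∀ n : ℕ, ∃ v ∈ UH hC K (n + 1), v • tp hC K m = u • tp hC K m := by
    intro n
    induction n with
    | zero =>
      rw [zero_add, UH_one hC]
      exact ⟨u, hu, rfl⟩
    | succ n ih =>
      obtain ⟨v, hv, e'⟩ := ih
      obtain ⟨v', hv', e2⟩ := kill_h hco hM hm hd hk hv (e.trans e'.symm)
      exact ⟨v', hv', e2.trans e'⟩
  obtain ⟨H, hH⟩ := hco.bot
  obtain ⟨v, hv, e'⟩ := h1 H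
  rw [hH (H + 1) (by omega), Subgroup.mem_bot] at hv
  subst hv
  rw [← e', one_smul]

end

/-- Row NRM. -/
theorem nrm : NrmStmt := by
  intro r C hC K _ _ l m hm hd k hk u hu e
  obtain ⟨co, hco⟩ := exists_co (K := K) hCoo hC
  refine kill_all hco (z := tp hC K l) (M := ip C l l) ?_ hm hd hk hu e
  intro k' hk' u' hu' m' h'
  exact ((hCat r C hC K).2.1 l m' k' hk' u' hu' h').1

end Pool.Agent.WHC.H63
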