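import Pool.Agent.Helper97_WHC.StmtC

/-!
# WHC, row RCG: growth of linear recurrences with roots in the unit disc
-/

set_option autoImplicit false

open scoped BigOperators

namespace Pool.Agent.WHC.H63

/-- the product of the operators `u ↦ (u (k + 1) - z u k)`, `z` in the list -/
def op : List ℂ → (ℕ → ℂ) → (ℕ → ℂ)
  | [], u => u
  | z :: L, u => op L (fun k => u (k + 1) - z * u k)

theorem op_geo (L : List ℂ) (c w : ℂ) :
    op L (fun k => c * w ^ k) = fun k => c * (L.map fun z => w - z).prod * w ^ k := by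
  induction L generalizing c with
  | nil =>
    funext k
    simp [op]
  | cons z L ih =>
    have h1 : (fun k : ℕ => c * w ^ (k + 1) - z * (c * w ^ k)) =
        fun k => (c * (w - z)) * w ^ k := by
      funext k
      ring
    rw [op, h1, ih]
    funext k
    rw [List.map_cons, List.prod_cons]
    ring

theorem op_sum {ι : Type} (s : Finset ι) (L : List ℂ) (f : ι → ℕ → ℂ) :
    op L (fun k => ∑ i ∈ s, f i k) = fun k => ∑ i ∈ s, op L (f i) k := by
  induction L generalizing f with
  | nil => rfl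
  | cons z L ih =>
    have h1 : (fun k : ℕ => ∑ i ∈ s, f i (k + 1) - z * ∑ i ∈ s, f i k) =
        fun k => ∑ i ∈ s, (fun k => f i (k + 1) - z * f i k) k := by
      funext k
      rw [Finset.mul_sum, ← Finset.sum_sub_distrib]
    rw [op, h1, ih]
    rfl

theorem growth (L : List ℂ) (hL : ∀ z ∈ L, ‖z‖ ≤ 1) (u : ℕ → ℂ) (U : ℝ) (hU : 0 ≤ U)
    (hu : ∀ k, op L u k = 0) (h0 : ∀ k, k < L.length → ‖u k‖ ≤ U) (n : ℕ) :
    ‖u n‖ ≤ 3 ^ L.length * ((n : ℝ) + 1) ^ (L.length - 1) * U := by
  induction L generalizing u U n with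
  | nil =>
    have h1 : u n = 0 := hu n
    rw [h1, norm_zero]
    positivity
  | cons z L ih =>
    have hz : ‖z‖ ≤ 1 := hL z List.mem_cons_self
    set v : ℕ → ℂ := fun k => u (k + 1) - z * u k with hv
    have hv0 : ∀ k, k < L.length → ‖v k‖ ≤ 2 * U := by
      intro k hk
      have h1 := h0 (k + 1) (by rw [List.length_cons]; omega)
      have h2 := h0 k (by rw [List.length_cons]; omega)
      calc ‖v k‖ ≤ ‖u (k + 1)‖ + ‖z * u k‖ := norm_sub_le _ _
        _ ≤ U + 1 * U := by
          rw [norm_mul]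
          gcongr
        _ = 2 * U := by ring
    have hvn := fun n => ih (fun w hw => hL w (List.mem_cons_of_mem _ hw)) v (2 * U)
      (by positivity) hu hv0 n
    have hsum : ∀ n, ‖u n‖ ≤ U + ∑ k ∈ Finset.range n, ‖v k‖ := by
      intro n
      induction n with
      | zero =>
        rw [Finset.range_zero, Finset.sum_empty, add_zero]
        exact h0 0 (by rw [List.length_cons]; omega)
      | succ n ihn =>
        rw [Finset.sum_range_succ]
        have e1 : u (n + 1) = v n + z * u n := by
          rw [hv]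
          ring
        have e2 : ‖u (n + 1)‖ ≤ ‖v n‖ + ‖u n‖ := by
          rw [e1]
          refine (norm_add_le _ _).trans ?_
          rw [norm_mul]
          have : ‖z‖ * ‖u n‖ ≤ 1 * ‖u n‖ := by gcongr
          linarith
        linarith
    have hn := hsum n
    rw [List.length_cons, Nat.add_sub_cancel]
    by_cases hl : L.length = 0
    · have hLn : L = [] := List.length_eq_zero_iff.1 hl
      have hv1 : ∀ k, v k = 0 := by
        intro k
        have := hu k
        rw [hLn] at this
        exact this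
      rw [Finset.sum_eq_zero (fun k _ => by rw [hv1, norm_zero]), add_zero] at hn
      rw [hl, pow_zero, zero_add, pow_one, mul_one]
      linarith
    · obtain ⟨l, hl'⟩ := Nat.exists_eq_succ_of_ne_zero hl
      rw [hl'] at hvn ⊢
      have e3 : ∑ k ∈ Finset.range n, ‖v k‖ ≤
          ∑ k ∈ Finset.range n, 3 ^ (l + 1) * ((n : ℝ) + 1) ^ l * (2 * U) := by
        refine Finset.sum_le_sum fun k hk => (hvn k).trans ?_
        have hkn : (k : ℝ) ≤ n := by
          exact_mod_cast (Finset.mem_range.1 hk).le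
        rw [Nat.succ_eq_add_one, Nat.add_sub_cancel]
        gcongr
      rw [Finset.sum_const, Finset.card_range, nsmul_eq_mul] at e3
      have e4 : (1 : ℝ) ≤ 3 ^ (l + 1) * ((n : ℝ) + 1) ^ (l + 1) := by
        have a1 : (1 : ℝ) ≤ 3 ^ (l + 1) := one_le_pow₀ (by norm_num)
        have a2 : (1 : ℝ) ≤ ((n : ℝ) + 1) ^ (l + 1) :=
          one_le_pow₀ (by have : (0 : ℝ) ≤ n := Nat.cast_nonneg n; linarith)
        nlinarith
      have e5 : (n : ℝ) * (3 ^ (l + 1) * ((n : ℝ) + 1) ^ l * (2 * U)) ≤
          3 ^ (l + 1) * ((n : ℝ) + 1) ^ (l + 1) * (2 * U) := by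
        have a1 : (n : ℝ) ≤ (n : ℝ) + 1 := by linarith
        calc (n : ℝ) * (3 ^ (l + 1) * ((n : ℝ) + 1) ^ l * (2 * U))
            ≤ ((n : ℝ) + 1) * (3 ^ (l + 1) * ((n : ℝ) + 1) ^ l * (2 * U)) := by gcongr
          _ = 3 ^ (l + 1) * ((n : ℝ) + 1) ^ (l + 1) * (2 * U) := by ring
      have e6 : U ≤ 3 ^ (l + 1) * ((n : ℝ) + 1) ^ (l + 1) * U := by nlinarith
      have e7 : (3 : ℝ) ^ (l + 1 + 1) * ((n : ℝ) + 1) ^ (l + 1) * U =
          3 ^ (l + 1) * ((n : ℝ) + 1) ^ (l + 1) * U +
            3 ^ (l + 1) * ((n : ℝ) + 1) ^ (l + 1) * (2 * U) := by ring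
      rw [Nat.succ_eq_add_one, e7]
      linarith

/-- RCG -/
theorem rcg : RcgStmt := by
  intro h
  refine ⟨3 ^ (h + 1), by positivity, ?_⟩
  intro z hz m U hU n
  have hU0 : 0 ≤ U := (norm_nonneg _).trans (hU m le_rfl (by omega))
  have hlen : (List.ofFn z).length = h + 1 := List.length_ofFn
  have h1 := growth (List.ofFn z) (by
      intro w hw
      obtain ⟨j, rfl⟩ := (List.mem_ofFn' z w).1 hw
      exact hz j) (fun k => ∑ j, z j ^ (m + k)) U hU0 (by
      intro k
      have e1 : (fun k : ℕ => ∑ j, z j ^ (m + k)) =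
          fun k => ∑ j, (fun k => z j ^ m * z j ^ k) k := by
        funext k
        refine Finset.sum_congr rfl fun j _ => ?_
        rw [pow_add]
      rw [e1, op_sum]
      refine Finset.sum_eq_zero fun j _ => ?_
      rw [op_geo]
      have e2 : ((List.ofFn z).map fun w => z j - w).prod = 0 := by
        rw [List.prod_eq_zero_iff, List.mem_map]
        exact ⟨z j, (List.mem_ofFn' z _).2 ⟨j, rfl⟩, sub_self _⟩
      change z j ^ m * ((List.ofFn z).map fun w => z j - w).prod * z j ^ k = 0
      rw [e2, mul_zero, zero_mul]) (by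
      intro k hk
      rw [hlen] at hk
      exact hU (m + k) (by omega) (by omega)) n
  rw [hlen, Nat.add_sub_cancel] at h1
  exact h1

end Pool.Agent.WHC.H63
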